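import Mathlib

set_option autoImplicit false

namespace Pool.Agent.H851.Alt

variable {Ω : Type}

/-- `Θ` is a block for `E` (in the weak form: an element of `E` which maps a point of `Θ` into `Θ`
maps `Θ` into `Θ`) -/
def Blk (E : Subgroup (Equiv.Perm Ω)) (Θ : Set Ω) : Prop :=
  ∀ g ∈ E, ∀ z ∈ Θ, g z ∈ Θ → ∀ w ∈ Θ, g w ∈ Θ

theorem Blk.mono {E E' : Subgroup (Equiv.Perm Ω)} (h : E ≤ E') {Θ : Set Ω} (hΘ : Blk E' Θ) :
    Blk E Θ := fun g hg => hΘ g (h hg)

/-- the smallest block which contains `S` -/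
def hull (E : Subgroup (Equiv.Perm Ω)) (S : Set Ω) : Set Ω :=
  {z | ∀ Θ : Set Ω, Blk E Θ → S ⊆ Θ → z ∈ Θ}

theorem subset_hull (E : Subgroup (Equiv.Perm Ω)) (S : Set Ω) : S ⊆ hull E S :=
  fun _ hz _ _ hS => hS hz

theorem blk_hull (E : Subgroup (Equiv.Perm Ω)) (S : Set Ω) : Blk E (hull E S) :=
  fun g hg z hz hgz w hw Θ hΘ hS => hΘ g hg z (hz Θ hΘ hS) (hgz Θ hΘ hS) w (hw Θ hΘ hS)

theorem hull_mono {E E' : Subgroup (Equiv.Perm Ω)} (h : E ≤ E') (S : Set Ω) :
    hull E S ⊆ hull E' S :=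
  fun _ hz Θ hΘ hS => hz Θ (hΘ.mono h) hS

theorem hull_subset {E : Subgroup (Equiv.Perm Ω)} {S Θ : Set Ω} (hΘ : Blk E Θ) (hS : S ⊆ Θ) :
    hull E S ⊆ Θ := fun _ hz => hz Θ hΘ hS

/-- finitely generated groups of finitary permutations are finite -/
theorem finite_closure (s : Set (Equiv.Perm Ω)) (hs : s.Finite)
    (hfin : ∀ g ∈ s, {x | g x ≠ x}.Finite) : Finite (Subgroup.closure s) := by
  classical
  let F : Set Ω := ⋃ g ∈ s, {x | g x ≠ x}
  have hF : F.Finite := Set.Finite.biUnion hs hfin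
  have hfix : ∀ g ∈ Subgroup.closure s, ∀ x, x ∉ F → g x = x := by
    intro g hg
    induction hg using Subgroup.closure_induction with
    | mem g hg =>
      intro x hx
      by_contra hne
      exact hx (Set.mem_iUnion₂.2 ⟨g, hg, hne⟩)
    | one => intro x _; rfl
    | mul g h _ _ ihg ihh => intro x hx; rw [Equiv.Perm.mul_apply, ihh x hx, ihg x hx]
    | inv g _ ih => intro x hx; exact (Equiv.Perm.inv_eq_iff_eq).2 (ih x hx).symm
  have : Finite F := hF
  have hfinite : Finite {f : Equiv.Perm Ω // ∀ a, ¬ (a ∈ F) → f a = a} :=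
    Finite.of_equiv _ (Equiv.Perm.subtypeEquivSubtypePerm (fun x => x ∈ F))
  exact Finite.of_injective
    (fun g : Subgroup.closure s =>
      (⟨g.1, hfix g.1 g.2⟩ : {f : Equiv.Perm Ω // ∀ a, ¬ (a ∈ F) → f a = a}))
    (fun a b hab => Subtype.ext (congrArg (fun z : {f : Equiv.Perm Ω // ∀ a, ¬ (a ∈ F) → f a = a}
      => z.1) hab))

/-- blocks of prime power size of a finite `p`-group of permutations -/
theorem exists_blk {p : ℕ} (hp : p.Prime) (E : Subgroup (Equiv.Perm Ω)) [Finite E]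
    (hE : IsPGroup p E) (x : Ω) (i : ℕ) :
    ∃ Θ : Set Ω, Blk E Θ ∧ x ∈ Θ ∧ Θ.Finite ∧ Θ.ncard ≤ p ^ i ∧
      (Θ.ncard = p ^ i ∨ ∀ g ∈ E, g x ∈ Θ) := by
  classical
  have : Fact p.Prime := ⟨hp⟩
  let St : Subgroup E := MulAction.stabilizer E x
  obtain ⟨e, he⟩ := IsPGroup.iff_card.1 hE
  obtain ⟨s, hs⟩ := IsPGroup.iff_card.1 (hE.to_subgroup St)
  -- a subgroup `K` between
  have key : ∀ (K : Subgroup E) (j : ℕ), St ≤ K → Nat.card K = p ^ (s + j) →
      Blk E (MulAction.orbit K x) ∧ x ∈ MulAction.orbit K x ∧ (MulAction.orbit K x).Finite ∧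
        (MulAction.orbit K x).ncard = p ^ j := by
    intro K j hStK hK
    refine ⟨?_, MulAction.mem_orbit_self x, Set.finite_range (fun k : K => k • x), ?_⟩
    · rintro g hg _ ⟨k1, rfl⟩ ⟨k2, hk2⟩ _ ⟨k3, rfl⟩
      have h1 : (k2.1⁻¹ * ⟨g, hg⟩ * k1.1 : E) ∈ St := by
        rw [MulAction.mem_stabilizer_iff, mul_smul, mul_smul, inv_smul_eq_iff]
        exact hk2.symm
      have h2 : (⟨g, hg⟩ : E) ∈ K := by
        have h3 := hStK h1
        have h4 : (⟨g, hg⟩ : E) = k2.1 * (k2.1⁻¹ * ⟨g, hg⟩ * k1.1) * k1.1⁻¹ := by group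
        rw [h4]
        exact mul_mem (mul_mem k2.2 h3) (inv_mem k1.2)
      exact ⟨⟨⟨g, hg⟩, h2⟩ * k3, mul_smul _ _ _⟩
    · rw [← MulAction.index_stabilizer]
      have h1 : MulAction.stabilizer K x = St.subgroupOf K := by
        ext k
        rfl
      have h2 : Nat.card (St.subgroupOf K) = p ^ s := by
        rw [← hs]
        exact Nat.card_congr (Subgroup.subgroupOfEquivOfLe hStK).toEquiv
      have h3 := Subgroup.card_mul_index (St.subgroupOf K)
      rw [h2, hK, pow_add] at h3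
      rw [h1]
      exact Nat.eq_of_mul_eq_mul_left (pow_pos hp.pos s) h3
  by_cases hcase : e ≤ s + i
  · have hse : s ≤ e := by
      have h1 : Nat.card St ∣ Nat.card E := Subgroup.card_subgroup_dvd_card St
      rw [hs, he] at h1
      exact (Nat.pow_dvd_pow_iff_le_right hp.one_lt).1 h1
    obtain ⟨h1, h2, h3, h4⟩ := key ⊤ (e - s) le_top (by
      rw [Subgroup.card_top, he]
      congr 1
      omega)
    refine ⟨_, h1, h2, h3, ?_, Or.inr ?_⟩
    · rw [h4]
      exact Nat.pow_le_pow_right hp.pos (by omega)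
    · intro g hg
      exact ⟨⟨⟨g, hg⟩, trivial⟩, rfl⟩
  · obtain ⟨K, hK, hStK⟩ := Sylow.exists_subgroup_card_pow_prime_le p (G := E) (n := s) (m := s + i)
      (by rw [he]; exact pow_dvd_pow p (by omega)) St hs (by omega)
    obtain ⟨h1, h2, h3, h4⟩ := key K i hStK hK
    exact ⟨_, h1, h2, h3, h4.le, Or.inl h4⟩

/-- in an infinite orbit of a `p`-group of finitary permutations there are large finite blocks -/
theorem exists_block_infinite {p : ℕ} (hp : p.Prime) (P : Subgroup (Equiv.Perm Ω))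
    (hP : IsPGroup p P) (hfin : ∀ g ∈ P, {x | g x ≠ x}.Finite) (x : Ω)
    (hinf : {y | ∃ g ∈ P, g x = y}.Infinite) (n : ℕ) :
    ∃ Γ : Set Ω, Γ.Finite ∧ n ≤ Γ.ncard ∧ Blk P Γ := by
  classical
  obtain ⟨T, hT, hTn⟩ := hinf.exists_subset_card_eq n
  have hch : ∀ y : Ω, ∃ g : Equiv.Perm Ω, g ∈ P ∧ (y ∈ T → g x = y) := by
    intro y
    by_cases hy : y ∈ T
    · obtain ⟨g, hg, hgy⟩ := hT hy
      exact ⟨g, hg, fun _ => hgy⟩
    · exact ⟨1, one_mem _, fun h => absurd h hy⟩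
  choose γ hγP hγ using hch
  let s0 : Set (Equiv.Perm Ω) := γ '' (T : Set Ω)
  have hs0 : s0.Finite := T.finite_toSet.image _
  let C : Subgroup (Equiv.Perm Ω) := Subgroup.closure s0
  have hCP : C ≤ P := by
    rw [Subgroup.closure_le]
    rintro _ ⟨y, _, rfl⟩
    exact hγP y
  have hCfin : Finite C := finite_closure s0 hs0 (fun g hg => hfin g (hCP (Subgroup.subset_closure hg)))
  let S : Set Ω := {y | ∃ g ∈ C, g x = y}
  have hTS : (T : Set Ω) ⊆ S := fun y hy => ⟨γ y, Subgroup.subset_closure ⟨y, hy, rfl⟩, hγ y hy⟩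
  -- bound for the supports
  obtain ⟨i, hi⟩ : ∃ i : ℕ, ∀ g : C, {x | (g : Equiv.Perm Ω) x ≠ x}.ncard < p ^ i := by
    obtain ⟨m, hm⟩ := (Set.finite_range (fun g : C => {x | (g : Equiv.Perm Ω) x ≠ x}.ncard)).bddAbove
    refine ⟨m + 1, fun g => ?_⟩
    have h1 : {x | (g : Equiv.Perm Ω) x ≠ x}.ncard ≤ m := hm ⟨g, rfl⟩
    have h2 : m + 1 < p ^ (m + 1) := Nat.lt_pow_self hp.one_lt
    omega
  have hbd : ∀ E : Subgroup (Equiv.Perm Ω), C ≤ E → E ≤ P → Finite E →
      ∃ Θ : Set Ω, Θ.Finite ∧ Θ.ncard ≤ p ^ i ∧ hull E S ⊆ Θ := by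
    intro E hCE hEP _
    obtain ⟨Θ, hΘ, hxΘ, hΘf, hΘc, hor⟩ := exists_blk hp E (hP.to_le hEP) x i
    refine ⟨Θ, hΘf, hΘc, hull_subset hΘ ?_⟩
    rintro _ ⟨g, hg, rfl⟩
    rcases hor with hor | hor
    · -- a fixed point of `g` in `Θ`
      have hgf : {x | g x ≠ x}.Finite := hfin g (hCP hg)
      have : ∃ z ∈ Θ, g z = z := by
        by_contra hcon
        push Not at hcon
        have h1 : Θ ⊆ {x | g x ≠ x} := fun z hz => hcon z hz
        have h2 := Set.ncard_le_ncard h1 hgf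
        have h3 := hi ⟨g, hg⟩
        change {x | g x ≠ x}.ncard < p ^ i at h3
        omega
      obtain ⟨z, hz, hgz⟩ := this
      exact hΘ g (hCE hg) z hz (by rw [hgz]; exact hz) x hxΘ
    · exact hor g (hCE hg)
  let Γ : Set Ω := {z | ∃ E : Subgroup (Equiv.Perm Ω), C ≤ E ∧ E ≤ P ∧ Finite E ∧ z ∈ hull E S}
  -- directedness
  have hdir : ∀ (ι : Type) (U : Finset ι) (f : ι → Subgroup (Equiv.Perm Ω)),
      (∀ j ∈ U, f j ≤ P ∧ Finite (f j)) → ∃ E : Subgroup (Equiv.Perm Ω), C ≤ E ∧ E ≤ P ∧ Finite E ∧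
        ∀ j ∈ U, f j ≤ E := by
    intro ι U f hf
    let s : Set (Equiv.Perm Ω) := (C : Set (Equiv.Perm Ω)) ∪ ⋃ j ∈ U, (f j : Set (Equiv.Perm Ω))
    have hs : s.Finite := by
      refine Set.Finite.union (Set.toFinite _) (Set.Finite.biUnion U.finite_toSet ?_)
      intro j hj
      have := (hf j hj).2
      exact Set.toFinite _
    have hsP : s ⊆ P := by
      rintro g (hg | hg)
      · exact hCP hg
      · obtain ⟨j, hj, hgj⟩ := Set.mem_iUnion₂.1 hg
        exact (hf j hj).1 hgj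
    refine ⟨Subgroup.closure s, ?_, ?_, finite_closure s hs (fun g hg => hfin g (hsP hg)), ?_⟩
    · intro g hg
      exact Subgroup.subset_closure (Or.inl hg)
    · rw [Subgroup.closure_le]
      exact hsP
    · intro j hj g hg
      exact Subgroup.subset_closure (Or.inr (Set.mem_iUnion₂.2 ⟨j, hj, hg⟩))
  have hΓfin : Γ.Finite := by
    by_contra hcon
    obtain ⟨T', hT', hT'c⟩ := (Set.not_finite.1 hcon : Γ.Infinite).exists_subset_card_eq (p ^ i + 1)
    have hch' : ∀ z : T', ∃ E : Subgroup (Equiv.Perm Ω), C ≤ E ∧ E ≤ P ∧ Finite E ∧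
        (z : Ω) ∈ hull E S := fun z => hT' z.2
    choose f hf1 hf2 hf3 hf4 using hch'
    obtain ⟨E, hCE, hEP, hEf, hE⟩ := hdir T' Finset.univ f (fun j _ => ⟨hf2 j, hf3 j⟩)
    obtain ⟨Θ, hΘf, hΘc, hΘ⟩ := hbd E hCE hEP hEf
    have h1 : (T' : Set Ω) ⊆ Θ := fun z hz =>
      hΘ (hull_mono (hE ⟨z, hz⟩ (Finset.mem_univ _)) S (hf4 ⟨z, hz⟩))
    have h2 := Set.ncard_le_ncard h1 hΘf
    rw [Set.ncard_coe_finset, hT'c] at h2
    omega
  refine ⟨Γ, hΓfin, ?_, ?_⟩
  · have h1 : (T : Set Ω) ⊆ Γ := fun y hy => ⟨C, le_rfl, hCP, hCfin, subset_hull C S (hTS hy)⟩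
    have h2 := Set.ncard_le_ncard h1 hΓfin
    rw [Set.ncard_coe_finset, hTn] at h2
    exact h2
  · rintro g hg z ⟨E1, h11, h12, h13, h14⟩ ⟨E2, h21, h22, h23, h24⟩ w ⟨E3, h31, h32, h33, h34⟩
    obtain ⟨E, hCE, hEP, hEf, hE⟩ := hdir (Fin 4) Finset.univ
      ![E1, E2, E3, Subgroup.closure {g}] (by
        have hgf : Finite (Subgroup.closure {g}) := finite_closure {g} (Set.finite_singleton g)
          (by
            intro g' hg'
            rw [Set.mem_singleton_iff] at hg'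
            rw [hg']
            exact hfin g hg)
        intro j _
        fin_cases j
        · exact ⟨h12, h13⟩
        · exact ⟨h22, h23⟩
        · exact ⟨h32, h33⟩
        · refine ⟨?_, hgf⟩
          change Subgroup.closure {g} ≤ P
          rw [Subgroup.closure_le]
          simpa using hg)
    have e1 : E1 ≤ E := hE 0 (Finset.mem_univ _)
    have e2 : E2 ≤ E := hE 1 (Finset.mem_univ _)
    have e3 : E3 ≤ E := hE 2 (Finset.mem_univ _)
    have e4 : Subgroup.closure {g} ≤ E := hE 3 (Finset.mem_univ _)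
    have hgE : g ∈ E := e4 (Subgroup.subset_closure rfl)
    exact ⟨E, hCE, hEP, hEf, blk_hull E S g hgE z (hull_mono e1 S h14) (hull_mono e2 S h24) w
      (hull_mono e3 S h34)⟩

end Pool.Agent.H851.Alt
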