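import Mathlib
import Pool.Agent.H851.Alt.Blocks

set_option autoImplicit false

/-! # Products of a `p`-group and a `q`-group: finitary symmetric and alternating groups

Let `Ω` be an infinite set and `G` a group of finitary permutations of `Ω` which contains all even
finitary permutations.  Then `G` is not the product of a `p`-subgroup and a `q`-subgroup,
`p ≠ q` primes. -/

namespace Pool.Agent.H851.Alt

open Equiv

theorem mem_of_mem {G : Type*} [Group G] {p q : ℕ} (hp : p.Prime) (hq : q.Prime) (hpq : p ≠ q)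
    {P Q : Subgroup G} (hP : IsPGroup p P) (hQ : IsPGroup q Q) (M : Subgroup G) [M.Normal]
    {a b : G} (ha : a ∈ P) (hb : b ∈ Q) (hab : a * b ∈ M) : a ∈ M ∧ b ∈ M := by
  obtain ⟨k, hk⟩ := hP ⟨a, ha⟩
  obtain ⟨l, hl⟩ := hQ ⟨b, hb⟩
  have hk' : a ^ p ^ k = 1 := congrArg Subtype.val hk
  have hl' : b ^ q ^ l = 1 := congrArg Subtype.val hl
  have h1 : (QuotientGroup.mk' M a) = (QuotientGroup.mk' M b)⁻¹ := by
    rw [← mul_eq_one_iff_eq_inv, ← map_mul]
    exact (QuotientGroup.eq_one_iff _).2 hab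
  have h2 : (QuotientGroup.mk' M a) ^ p ^ k = 1 := by rw [← map_pow, hk', map_one]
  have h3 : (QuotientGroup.mk' M a) ^ q ^ l = 1 := by
    rw [h1, inv_pow, ← map_pow, hl', map_one, inv_one]
  have hcop : Nat.Coprime (p ^ k) (q ^ l) :=
    Nat.Coprime.pow _ _ ((Nat.coprime_primes hp hq).2 hpq)
  have h4 : QuotientGroup.mk' M a = 1 := by
    have h5 := orderOf_dvd_of_pow_eq_one h2
    have h6 := orderOf_dvd_of_pow_eq_one h3
    have h7 : orderOf (QuotientGroup.mk' M a) ∣ 1 := by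
      rw [← hcop.gcd_eq_one]
      exact Nat.dvd_gcd h5 h6
    exact orderOf_eq_one_iff.1 (Nat.dvd_one.1 h7)
  have haM : a ∈ M := (QuotientGroup.eq_one_iff _).1 h4
  refine ⟨haM, ?_⟩
  have : b = a⁻¹ * (a * b) := by group
  rw [this]
  exact mul_mem (inv_mem haM) hab

/-- the order of a finite product of a `p`-group and a `q`-group -/
theorem card_prod {G : Type*} [Group G] [Finite G] {p q : ℕ} (hp : p.Prime) (hq : q.Prime)
    (hpq : p ≠ q) {P Q : Subgroup G} (hP : IsPGroup p P) (hQ : IsPGroup q Q)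
    (hG : ∀ g : G, ∃ a ∈ P, ∃ b ∈ Q, g = a * b) : ∃ k l, Nat.card G = p ^ k * q ^ l := by
  have : Fact p.Prime := ⟨hp⟩
  have : Fact q.Prime := ⟨hq⟩
  obtain ⟨k, hk⟩ := IsPGroup.iff_card.1 hP
  obtain ⟨l, hl⟩ := IsPGroup.iff_card.1 hQ
  have hbij : Function.Bijective (fun ab : P × Q => (ab.1 : G) * ab.2) := by
    constructor
    · rintro ⟨a, b⟩ ⟨a', b'⟩ hab
      have hab' : (a : G) * b = a' * b' := hab
      have h1 : ((a' : G)⁻¹ * a) * (b * (b' : G)⁻¹) ∈ (⊥ : Subgroup G) := by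
        rw [Subgroup.mem_bot]
        calc ((a' : G)⁻¹ * a) * (b * (b' : G)⁻¹) = (a' : G)⁻¹ * (a * b) * (b' : G)⁻¹ := by group
          _ = 1 := by rw [hab']; group
      obtain ⟨h2, h3⟩ := mem_of_mem hp hq hpq hP hQ ⊥
        (mul_mem (inv_mem a'.2) a.2) (mul_mem b.2 (inv_mem b'.2)) h1
      rw [Subgroup.mem_bot] at h2 h3
      have h4 : a = a' := Subtype.ext (inv_mul_eq_one.1 h2).symm
      have h5 : b = b' := Subtype.ext (mul_inv_eq_one.1 h3)
      rw [h4, h5]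
    · intro g
      obtain ⟨a, ha, b, hb, rfl⟩ := hG g
      exact ⟨(⟨a, ha⟩, ⟨b, hb⟩), rfl⟩
  exact ⟨k, l, by rw [← Nat.card_eq_of_bijective _ hbij, Nat.card_prod, hk, hl]⟩

/-- a `p`-group of finitary permutations of an infinite set has a finite block with at least five
points -/
theorem exists_large_blk {Ω : Type} [Infinite Ω] {p : ℕ} (hp : p.Prime)
    (P : Subgroup (Perm Ω)) (hP : IsPGroup p P) (hfin : ∀ g ∈ P, {x | g x ≠ x}.Finite) :
    ∃ Γ : Set Ω, Γ.Finite ∧ 5 ≤ Γ.ncard ∧ Blk P Γ := by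
  classical
  by_cases h : ∃ x, {y | ∃ g ∈ P, g x = y}.Infinite
  · obtain ⟨x, hx⟩ := h
    exact exists_block_infinite hp P hP hfin x hx 5
  · push Not at h
    obtain ⟨T, hT⟩ := Infinite.exists_subset_card_eq Ω 5
    let Γ : Set Ω := ⋃ x ∈ T, {y | ∃ g ∈ P, g x = y}
    have hΓ : Γ.Finite := Set.Finite.biUnion T.finite_toSet
      (fun x _ => h x)
    refine ⟨Γ, hΓ, ?_, ?_⟩
    · have h1 : (T : Set Ω) ⊆ Γ := fun x hx => Set.mem_iUnion₂.2 ⟨x, hx, 1, one_mem _, rfl⟩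
      have h2 := Set.ncard_le_ncard h1 hΓ
      rw [Set.ncard_coe_finset, hT] at h2
      exact h2
    · intro g hg z _ _ w hw
      obtain ⟨x, hx, g', hg', rfl⟩ := Set.mem_iUnion₂.1 hw
      exact Set.mem_iUnion₂.2 ⟨x, hx, g * g', mul_mem hg hg', rfl⟩

/-- Let `Ω` be an infinite set and `G` a group of permutations of `Ω` with finite support which
contains all even ones.  Then `G` is not the product of a `p`-subgroup and a `q`-subgroup. -/
theorem alternating_not_product (Ω : Type) [Infinite Ω] [DecidableEq Ω] (G : Subgroup (Perm Ω))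
    (hfin : ∀ g ∈ G, {x | g x ≠ x}.Finite)
    (halt : ∀ (F : Finset Ω) (σ : Perm {x // x ∈ F}), σ ∈ alternatingGroup {x // x ∈ F} →
      Perm.ofSubtype σ ∈ G)
    (p q : ℕ) (hp : p.Prime) (hq : q.Prime) (hpq : p ≠ q) (P Q : Subgroup (Perm Ω))
    (hPG : P ≤ G) (hP : IsPGroup p P) (hQ : IsPGroup q Q) :
    ¬ ∀ g ∈ G, ∃ a ∈ P, ∃ b ∈ Q, g = a * b := by
  intro hprod
  obtain ⟨Γ, hΓ, hΓ5, hblk⟩ := exists_large_blk hp P hP (fun g hg => hfin g (hPG hg))
  obtain ⟨F, rfl⟩ := hΓ.exists_finset_coe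
  rw [Set.ncard_coe_finset] at hΓ5
  -- the translates
  let PP : Set (Set Ω) := {Θ | ∃ g ∈ P, Θ = g '' (F : Set Ω)}
  have himg : ∀ (g h : Perm Ω) (Θ : Set Ω), (g * h) '' Θ = g '' (h '' Θ) := by
    intro g h Θ
    rw [Set.image_image]
    rfl
  have himg1 : ∀ (g : Perm Ω) (Θ : Set Ω), g '' (⇑(g⁻¹) '' Θ) = Θ := by
    intro g Θ
    rw [← himg, mul_inv_cancel]
    exact Set.image_id Θ
  have himg2 : ∀ (g : Perm Ω) (Θ : Set Ω), ⇑(g⁻¹) '' (g '' Θ) = Θ := by
    intro g Θ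
    rw [← himg, inv_mul_cancel]
    exact Set.image_id Θ
  let H : Subgroup (Perm Ω) :=
    { carrier := {h | h ∈ G ∧ ∀ Θ, Θ ∈ PP ↔ h '' Θ ∈ PP}
      one_mem' := ⟨one_mem _, fun Θ => by
        have : (1 : Perm Ω) '' Θ = Θ := Set.image_id Θ
        rw [this]⟩
      mul_mem' := by
        rintro a b ⟨ha, ha'⟩ ⟨hb, hb'⟩
        exact ⟨mul_mem ha hb, fun Θ => by rw [himg, hb' Θ, ha' (b '' Θ)]⟩
      inv_mem' := by
        rintro a ⟨ha, ha'⟩
        exact ⟨inv_mem ha, fun Θ => by rw [ha' (⇑(a⁻¹) '' Θ), himg1]⟩ }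
  let K : Subgroup (Perm Ω) :=
    { carrier := {h | h ∈ G ∧ ∀ Θ ∈ PP, h '' Θ = Θ}
      one_mem' := ⟨one_mem _, fun Θ _ => Set.image_id Θ⟩
      mul_mem' := by
        rintro a b ⟨ha, ha'⟩ ⟨hb, hb'⟩
        exact ⟨mul_mem ha hb, fun Θ hΘ => by rw [himg, hb' Θ hΘ, ha' Θ hΘ]⟩
      inv_mem' := by
        rintro a ⟨ha, ha'⟩
        refine ⟨inv_mem ha, fun Θ hΘ => ?_⟩
        conv_lhs => rw [← ha' Θ hΘ]
        exact himg2 a Θ }
  have hKH : K ≤ H := by
    rintro k ⟨hk, hk'⟩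
    refine ⟨hk, fun Θ => ⟨fun h => by rw [hk' Θ h]; exact h, fun h => ?_⟩⟩
    have h1 := hk' _ h
    have h2 : k '' Θ = Θ := by
      have := congrArg (fun Z => ⇑(k⁻¹) '' Z) h1
      simpa only [himg2] using this
    rwa [h2] at h
  have hPH : P ≤ H := by
    intro g hg
    refine ⟨hPG hg, fun Θ => ⟨?_, ?_⟩⟩
    · rintro ⟨g', hg', rfl⟩
      exact ⟨g * g', mul_mem hg hg', (himg _ _ _).symm⟩
    · rintro ⟨g', hg', h⟩
      refine ⟨g⁻¹ * g', mul_mem (inv_mem hg) hg', ?_⟩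
      rw [himg, ← h, himg2]
  have hKn : (K.subgroupOf H).Normal := by
    refine ⟨?_⟩
    rintro ⟨k, hkH⟩ hk ⟨h, hh⟩
    obtain ⟨hk1, hk2⟩ : k ∈ K := hk
    change h * k * h⁻¹ ∈ K
    refine ⟨mul_mem (mul_mem hh.1 hk1) (inv_mem hh.1), fun Θ hΘ => ?_⟩
    have h1 : ⇑(h⁻¹) '' Θ ∈ PP := ((inv_mem hh : h⁻¹ ∈ H).2 Θ).1 hΘ
    rw [himg, himg, hk2 _ h1, himg1]
  -- factorization of `K`
  have hKprod : ∀ k ∈ K, ∃ a ∈ P, ∃ b ∈ Q, a ∈ K ∧ b ∈ K ∧ k = a * b := by
    intro k hk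
    obtain ⟨a, ha, b, hb, rfl⟩ := hprod k hk.1
    have haH : a ∈ H := hPH ha
    have hbH : b ∈ H := by
      have : b = a⁻¹ * (a * b) := by group
      rw [this]
      exact mul_mem (inv_mem haH) (hKH hk)
    obtain ⟨h1, h2⟩ := mem_of_mem hp hq hpq (P := P.subgroupOf H) (Q := Q.subgroupOf H)
      hP.comap_subtype hQ.comap_subtype (K.subgroupOf H) (a := ⟨a, haH⟩) (b := ⟨b, hbH⟩) ha hb hk
    exact ⟨a, ha, b, hb, h1, h2, rfl⟩
  -- the action of `K` on `F`
  have hFP : (F : Set Ω) ∈ PP := ⟨1, one_mem _, (Set.image_id _).symm⟩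
  have hKF : ∀ k : K, ∀ x, x ∈ F ↔ (k : Perm Ω) x ∈ F := by
    intro k x
    have h1 : (k : Perm Ω) '' (F : Set Ω) = F := k.2.2 _ hFP
    constructor
    · intro hx
      have : (k : Perm Ω) x ∈ (k : Perm Ω) '' (F : Set Ω) := ⟨x, hx, rfl⟩
      rw [h1] at this
      exact this
    · intro hx
      have : (k : Perm Ω) x ∈ (k : Perm Ω) '' (F : Set Ω) := by rw [h1]; exact hx
      obtain ⟨y, hy, hyx⟩ := this
      rw [← (k : Perm Ω).injective hyx]
      exact hy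
  let ρ : K →* Perm {x // x ∈ F} :=
    { toFun := fun k => (k : Perm Ω).subtypePerm (fun x => (hKF k x).symm)
      map_one' := by ext x; rfl
      map_mul' := fun a b => by ext x; rfl }
  have hρ : ∀ k x, ((ρ k x : {x // x ∈ F}) : Ω) = (k : Perm Ω) x := fun _ _ => rfl
  let R : Subgroup (Perm {x // x ∈ F}) := ρ.range
  obtain ⟨k, l, hkl⟩ : ∃ k l, Nat.card R = p ^ k * q ^ l := by
    refine card_prod hp hq hpq (P := (P.subgroupOf K).map ρ.rangeRestrict)
      (Q := (Q.subgroupOf K).map ρ.rangeRestrict) ?_ ?_ ?_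
    · exact (hP.comap_subtype (K := K)).map _
    · exact (hQ.comap_subtype (K := K)).map _
    · rintro ⟨_, k, rfl⟩
      obtain ⟨a, ha, b, hb, haK, hbK, hk⟩ := hKprod k.1 k.2
      refine ⟨_, ⟨⟨a, haK⟩, ha, rfl⟩, _, ⟨⟨b, hbK⟩, hb, rfl⟩, ?_⟩
      rw [← map_mul]
      apply Subtype.ext
      change ρ k = ρ (⟨a, haK⟩ * ⟨b, hbK⟩)
      congr 1
      exact Subtype.ext hk
  -- the alternating group
  have hA : alternatingGroup {x // x ∈ F} ≤ R := by
    intro σ hσ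
    have hk : Perm.ofSubtype σ ∈ K := by
      refine ⟨halt F σ hσ, ?_⟩
      rintro _ ⟨g, hg, rfl⟩
      have hmemF : ∀ x, x ∈ F → Perm.ofSubtype σ x ∈ F := by
        intro x hx
        rw [Perm.ofSubtype_apply_of_mem σ hx]
        exact (σ ⟨x, hx⟩).2
      -- it maps `g '' F` into itself
      have key : ∀ τ : Perm {x // x ∈ F}, ∀ z ∈ g '' (F : Set Ω),
          Perm.ofSubtype τ z ∈ g '' (F : Set Ω) := by
        rintro τ _ ⟨x, hx, rfl⟩
        by_cases hgx : g x ∈ F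
        · rw [Perm.ofSubtype_apply_of_mem τ hgx]
          have h1 := hblk g⁻¹ (inv_mem hg) (g x) hgx (by
            have h0 : (g⁻¹ : Perm Ω) (g x) = x := g.symm_apply_apply x
            rw [h0]
            exact hx) _ (τ ⟨g x, hgx⟩).2
          exact ⟨_, h1, g.apply_symm_apply _⟩
        · rw [Perm.ofSubtype_apply_of_not_mem τ hgx]
          exact ⟨x, hx, rfl⟩
      apply Set.Subset.antisymm
      · rintro _ ⟨z, hz, rfl⟩
        exact key σ z hz
      · intro z hz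
        refine ⟨Perm.ofSubtype σ⁻¹ z, key σ⁻¹ z hz, ?_⟩
        rw [← Perm.mul_apply, ← map_mul, mul_inv_cancel, map_one, Perm.one_apply]
    refine ⟨⟨_, hk⟩, ?_⟩
    ext x
    rw [hρ]
    exact Perm.ofSubtype_apply_coe σ x
  have hcard : Nat.card (alternatingGroup {x // x ∈ F}) ∣ p ^ k * q ^ l := by
    rw [← hkl]
    exact Subgroup.card_dvd_of_le hA
  have h60 : 60 ∣ Nat.card (alternatingGroup {x // x ∈ F}) := by
    have hF5 : 5 ≤ Fintype.card {x // x ∈ F} := by rwa [Fintype.card_coe]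
    have : Nontrivial {x // x ∈ F} := Fintype.one_lt_card_iff_nontrivial.1 (by omega)
    have h1 := two_mul_nat_card_alternatingGroup (α := {x // x ∈ F})
    rw [Nat.card_eq_fintype_card (α := Perm {x // x ∈ F}), Fintype.card_perm] at h1
    have h2 : (5).factorial ∣ (Fintype.card {x // x ∈ F}).factorial :=
      Nat.factorial_dvd_factorial hF5
    have h3 : (5).factorial = 120 := by decide
    rw [h3, ← h1] at h2
    omega
  have hr : ∀ r : ℕ, r.Prime → r ∣ 60 → r = p ∨ r = q := by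
    intro r hr h
    rcases (Nat.Prime.dvd_mul hr).1 ((h.trans h60).trans hcard) with h2 | h2
    · exact Or.inl ((Nat.prime_dvd_prime_iff_eq hr hp).1 (hr.dvd_of_dvd_pow h2))
    · exact Or.inr ((Nat.prime_dvd_prime_iff_eq hr hq).1 (hr.dvd_of_dvd_pow h2))
  have r2 := hr 2 (by norm_num) (by norm_num)
  have r3 := hr 3 (by norm_num) (by norm_num)
  have r5 := hr 5 (by norm_num) (by norm_num)
  omega

end Pool.Agent.H851.Alt
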